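import Pool.Agent.J4H48.LA.Stm

set_option autoImplicit false

/-! Project LA (MP_743d1e_nt), piece CNT: fundamental cycles of a spanning tree. -/

namespace Pool.Agent.J4H46.LA

open Pool.Agent.J4H48.LA

/-- unit flow from `s` to `t` -/
def un {m : ℕ} (s t a b : Fin (m + 1)) : ℤ :=
  (if a = s ∧ b = t then 1 else 0) - (if a = t ∧ b = s then 1 else 0)

theorem un_anti {m : ℕ} (s t a b : Fin (m + 1)) : un s t b a = - un s t a b := by
  unfold un
  have h1 : (b = s ∧ a = t) ↔ (a = t ∧ b = s) := and_comm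
  have h2 : (b = t ∧ a = s) ↔ (a = s ∧ b = t) := and_comm
  rw [if_congr h1 rfl rfl, if_congr h2 rfl rfl]
  ring

theorem un_same {m : ℕ} (cls : Fin (m + 1) → Fin 3) (s t a b : Fin (m + 1)) (h : cls s ≠ cls t)
    (hab : cls a = cls b) : un s t a b = 0 := by
  unfold un
  rw [if_neg (by rintro ⟨rfl, rfl⟩; exact h hab), if_neg (by rintro ⟨rfl, rfl⟩; exact h hab.symm), sub_zero]

theorem un_flow {m : ℕ} (s t a : Fin (m + 1)) : ∑ b, un s t a b = (if a = s then 1 else 0) - (if a = t then 1 else 0) := by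
  unfold un
  rw [Finset.sum_sub_distrib]
  congr 1
  · by_cases h : a = s <;> simp [h]
  · by_cases h : a = t <;> simp [h]

/-- the flow from `g` to `e₀` in the tree -/
def pth {m : ℕ} (cls : Fin (m + 1) → Fin 3) (e₀ f₀ g a b : Fin (m + 1)) : ℤ :=
  if g = e₀ then 0 else if cls g = cls e₀ then un g f₀ a b + un f₀ e₀ a b else un g e₀ a b

theorem pth_anti {m : ℕ} (cls : Fin (m + 1) → Fin 3) (e₀ f₀ g a b : Fin (m + 1)) :
    pth cls e₀ f₀ g b a = - pth cls e₀ f₀ g a b := by
  unfold pth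
  split_ifs
  · simp
  · rw [un_anti g f₀, un_anti f₀ e₀]; ring
  · rw [un_anti]

theorem pth_same {m : ℕ} (cls : Fin (m + 1) → Fin 3) (e₀ f₀ g a b : Fin (m + 1)) (h : cls e₀ ≠ cls f₀)
    (hab : cls a = cls b) : pth cls e₀ f₀ g a b = 0 := by
  unfold pth
  split_ifs with h1 h2
  · rfl
  · rw [un_same cls g f₀ a b (by rw [h2]; exact h) hab, un_same cls f₀ e₀ a b h.symm hab, add_zero]
  · exact un_same cls g e₀ a b h2 hab

theorem pth_flow {m : ℕ} (cls : Fin (m + 1) → Fin 3) (e₀ f₀ g a : Fin (m + 1)) :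
    ∑ b, pth cls e₀ f₀ g a b = (if a = g then 1 else 0) - (if a = e₀ then 1 else 0) := by
  by_cases h1 : g = e₀
  · subst h1
    simp [pth]
  · by_cases h2 : cls g = cls e₀
    · have : ∀ b, pth cls e₀ f₀ g a b = un g f₀ a b + un f₀ e₀ a b := fun b => by
        unfold pth; rw [if_neg h1, if_pos h2]
      simp only [this]
      rw [Finset.sum_add_distrib, un_flow, un_flow]
      ring
    · have : ∀ b, pth cls e₀ f₀ g a b = un g e₀ a b := fun b => by
        unfold pth; rw [if_neg h1, if_neg h2]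
      simp only [this]
      rw [un_flow]

/-- the ordered pair of two elements -/
def ord {m : ℕ} (cls : Fin (m + 1) → Fin 3) (g h : Fin (m + 1)) : Fin (m + 1) × Fin (m + 1) :=
  if cls g < cls h then (g, h) else (h, g)

theorem un_zero {m : ℕ} (cls : Fin (m + 1) → Fin 3) (s t a b : Fin (m + 1)) (hab : cls a < cls b)
    (h : (a, b) ≠ ord cls s t) : un s t a b = 0 := by
  unfold un ord at *
  have h1 : ¬ (a = s ∧ b = t) := by
    rintro ⟨rfl, rfl⟩
    rw [if_pos hab] at h
    exact h rfl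
  have h2 : ¬ (a = t ∧ b = s) := by
    rintro ⟨rfl, rfl⟩
    rw [if_neg (not_lt.2 hab.le)] at h
    exact h rfl
  rw [if_neg h1, if_neg h2, sub_zero]

theorem un_self {m : ℕ} (cls : Fin (m + 1) → Fin 3) (s t a b : Fin (m + 1)) (hab : cls a < cls b)
    (hst : cls s < cls t) : un s t a b = if (a, b) = (s, t) then 1 else 0 := by
  unfold un
  have h2 : ¬ (a = t ∧ b = s) := by
    rintro ⟨rfl, rfl⟩
    exact absurd hab (not_lt.2 hst.le)
  rw [if_neg h2, sub_zero]
  by_cases h : a = s ∧ b = t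
  · rw [if_pos h, if_pos (by rw [h.1, h.2])]
  · rw [if_neg h, if_neg (by rw [Prod.mk.injEq]; exact h)]

/-- the edges of the tree -/
def tre {m : ℕ} (cls : Fin (m + 1) → Fin 3) (e₀ f₀ : Fin (m + 1)) : Finset (Fin (m + 1) × Fin (m + 1)) :=
  (Finset.univ.erase e₀).image (fun g => ord cls g (if cls g = cls e₀ then f₀ else e₀))

theorem pth_zero {m : ℕ} (cls : Fin (m + 1) → Fin 3) (e₀ f₀ g a b : Fin (m + 1)) (h : cls e₀ ≠ cls f₀)
    (hab : cls a < cls b) (hT : (a, b) ∉ tre cls e₀ f₀) : pth cls e₀ f₀ g a b = 0 := by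
  have key : ∀ g', g' ≠ e₀ → un g' (if cls g' = cls e₀ then f₀ else e₀) a b = 0 := by
    intro g' hg'
    apply un_zero cls _ _ _ _ hab
    intro hc
    apply hT
    unfold tre
    rw [Finset.mem_image]
    exact ⟨g', Finset.mem_erase.2 ⟨hg', Finset.mem_univ _⟩, hc.symm⟩
  unfold pth
  split_ifs with h1 h2
  · rfl
  · have k1 := key g h1
    rw [if_pos h2] at k1
    have k2 := key f₀ (by rintro rfl; exact h rfl)
    rw [if_neg h.symm] at k2
    rw [k1, k2, add_zero]
  · have k1 := key g h1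
    rw [if_neg h2] at k1
    exact k1

theorem card_edges {m : ℕ} (cls : Fin (m + 1) → Fin 3) :
    num cls 0 * num cls 1 + num cls 0 * num cls 2 + num cls 1 * num cls 2 ≤
      (Finset.univ.filter (fun p : Fin (m + 1) × Fin (m + 1) => cls p.1 < cls p.2)).card := by
  classical
  unfold num
  rw [← Finset.card_product, ← Finset.card_product, ← Finset.card_product]
  rw [← Finset.card_union_of_disjoint, ← Finset.card_union_of_disjoint]
  · apply Finset.card_le_card
    intro p hp
    simp only [Finset.mem_union, Finset.mem_product, Finset.mem_filter, Finset.mem_univ, true_and] at hp ⊢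
    rcases hp with (⟨h1, h2⟩ | ⟨h1, h2⟩) | ⟨h1, h2⟩ <;> rw [h1, h2] <;> decide
  · rw [Finset.disjoint_left]
    intro p hp hq
    simp only [Finset.mem_union, Finset.mem_product, Finset.mem_filter, Finset.mem_univ, true_and] at hp hq
    rcases hp with ⟨h1, h2⟩ | ⟨h1, h2⟩
    · rw [hq.1] at h1; exact absurd h1 (by decide)
    · rw [hq.1] at h1; exact absurd h1 (by decide)
  · rw [Finset.disjoint_left]
    intro p hp hq
    simp only [Finset.mem_product, Finset.mem_filter, Finset.mem_univ, true_and] at hp hq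
    rw [hq.2] at hp
    exact absurd hp.2 (by decide)

/-- (CNT) -/
theorem t_CNT : S_CNT := by
  classical
  rintro m cls ⟨e₀, f₀, h0⟩
  set N : Finset (Fin (m + 1) × Fin (m + 1)) :=
    (Finset.univ.filter (fun p : Fin (m + 1) × Fin (m + 1) => cls p.1 < cls p.2)) \ tre cls e₀ f₀ with hN
  have hcard : gen cls ≤ N.card := by
    have h1 : (tre cls e₀ f₀).card ≤ m := by
      unfold tre
      refine Finset.card_image_le.trans ?_
      rw [Finset.card_erase_of_mem (Finset.mem_univ _), Finset.card_univ, Fintype.card_fin]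
      omega
    have h2 := card_edges cls
    have h3 := Finset.le_card_sdiff (tre cls e₀ f₀)
      (Finset.univ.filter (fun p : Fin (m + 1) × Fin (m + 1) => cls p.1 < cls p.2))
    unfold gen
    rw [hN]
    omega
  obtain ⟨φ⟩ : Nonempty (Fin (gen cls) ↪ N) := by
    rw [Function.Embedding.nonempty_iff_card_le]
    simpa using hcard
  have hφ : ∀ j, cls (φ j).1.1 < cls (φ j).1.2 ∧ (φ j).1 ∉ tre cls e₀ f₀ := by
    intro j
    have hmem : ∀ p ∈ N, cls p.1 < cls p.2 ∧ p ∉ tre cls e₀ f₀ := by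
      intro p hp
      rw [hN, Finset.mem_sdiff, Finset.mem_filter] at hp
      exact ⟨hp.1.2, hp.2⟩
    exact hmem _ (φ j).2
  refine ⟨fun j a b => un (φ j).1.1 (φ j).1.2 a b + pth cls e₀ f₀ (φ j).1.2 a b - pth cls e₀ f₀ (φ j).1.1 a b,
    fun j => (φ j).1.1, fun j => (φ j).1.2, ?_, ?_⟩
  · intro j
    refine ⟨?_, ?_, ?_⟩
    · intro a b
      have e1 := un_anti (φ j).1.1 (φ j).1.2 a b
      have e2 := pth_anti cls e₀ f₀ (φ j).1.2 a b
      have e3 := pth_anti cls e₀ f₀ (φ j).1.1 a b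
      simp only [e1, e2, e3]
      ring
    · intro a b hab
      show _ + _ - _ = (0 : ℤ)
      rw [un_same cls _ _ _ _ (ne_of_lt (hφ j).1) hab, pth_same cls _ _ _ _ _ h0 hab, pth_same cls _ _ _ _ _ h0 hab]
      ring
    · intro a
      rw [Finset.sum_sub_distrib, Finset.sum_add_distrib, un_flow, pth_flow, pth_flow]
      ring
  · intro i j
    show _ + _ - _ = _
    rw [pth_zero cls e₀ f₀ _ _ _ h0 (hφ i).1 (hφ i).2, pth_zero cls e₀ f₀ _ _ _ h0 (hφ i).1 (hφ i).2,
      un_self cls _ _ _ _ (hφ i).1 (hφ j).1]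
    by_cases h : i = j
    · subst h; simp
    · rw [if_neg h, if_neg]
      · ring
      · intro hc
        apply h
        apply φ.injective
        apply Subtype.ext
        exact hc

end Pool.Agent.J4H46.LA
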