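import Pool.Agent.J4H48.LA.Stm

set_option autoImplicit false

/-! Project LA (MP_743d1e_nt), piece NUM. -/

namespace Pool.Agent.J4H46.LA

open Pool.Agent.J4H48.LA

theorem pow5_le (n : ℕ) : n ^ 5 ≤ 200 * 2 ^ n := by
  rcases Nat.lt_or_ge n 7 with h | h
  · interval_cases n <;> norm_num
  · induction n, h using Nat.le_induction with
    | base => norm_num
    | succ n hn ih =>
      have h1 : (n + 1) ^ 5 ≤ 2 * n ^ 5 := by
        obtain ⟨k, rfl⟩ := Nat.exists_eq_add_of_le hn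
        ring_nf
        nlinarith [Nat.zero_le k, Nat.zero_le (k ^ 2), Nat.zero_le (k ^ 3), Nat.zero_le (k ^ 4), Nat.zero_le (k ^ 5)]
      calc (n + 1) ^ 5 ≤ 2 * n ^ 5 := h1
        _ ≤ 2 * (200 * 2 ^ n) := Nat.mul_le_mul_left _ ih
        _ = 200 * 2 ^ (n + 1) := by rw [pow_succ]; ring

/-- (NUM) -/
theorem t_NUM : S_NUM := by
  intro m lam hl
  have hl' : (10 : ℝ) ^ 12 ≤ |(lam : ℝ)| := by exact_mod_cast hl
  have hpos : (0 : ℝ) < |(lam : ℝ)| := lt_of_lt_of_le (by positivity) hl'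
  refine ⟨by unfold tau; positivity, ?_⟩
  have h5 : ((m : ℝ) + 1) ^ 5 ≤ 200 * 2 ^ (m + 1) := by exact_mod_cast pow5_le (m + 1)
  have h2 : (0 : ℝ) < 2 ^ (m + 1) := by positivity
  have hA : 3 * tau m lam * ((m : ℝ) + 1) ^ 4 ≤ 3 / 5 := by
    have e1 : 3 * tau m lam * ((m : ℝ) + 1) ^ 4 = (3 * 10 ^ 9 * ((m : ℝ) + 1) ^ 5) / (|(lam : ℝ)| * 2 ^ (m + 1)) := by
      unfold tau; ring
    rw [e1, div_le_iff₀ (by positivity)]
    calc 3 * 10 ^ 9 * ((m : ℝ) + 1) ^ 5 ≤ 3 * 10 ^ 9 * (200 * 2 ^ (m + 1)) := by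
          apply mul_le_mul_of_nonneg_left h5 (by norm_num)
      _ = 3 / 5 * (10 ^ 12 * 2 ^ (m + 1)) := by ring
      _ ≤ 3 / 5 * (|(lam : ℝ)| * 2 ^ (m + 1)) := by gcongr
  have hB : (1 : ℝ) < Real.log |(lam : ℝ)| := by
    rw [Real.lt_log_iff_exp_lt hpos]
    calc Real.exp 1 < 3 := by linarith [Real.exp_one_lt_d9]
      _ ≤ 10 ^ 12 := by norm_num
      _ ≤ _ := hl'
  linarith

end Pool.Agent.J4H46.LA
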